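import Pool.Agent.Lib.MP_e80b9c_lc.Defs

/-!
# Bartoszynski's characterisation of `cov(M)` (the direction needed)

If the real line is covered by `κ` meager sets then there are at most `κ` functions such that
every function is eventually different from one of them.
-/

set_option autoImplicit false

namespace Pool.Agent.Lib.MP_e80b9c_lc

open Set Filter Topology
open Cardinal hiding univ

/-- Injective choice along a well-order. -/
theorem exists_injective_choice {ι α : Type} [LinearOrder ι] [WellFoundedLT ι]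
    (S : ι → Set α)
    (h : ∀ (i : ι) (D : Set α), #(↥D) ≤ #(↥(Iio i)) → (S i \ D).Nonempty) :
    ∃ a : ι → α, Function.Injective a ∧ ∀ i, a i ∈ S i := by
  classical
  have key : ∀ (i : ι) (rec : ∀ j : ι, j < i → α),
      (S i \ {x | ∃ (j : ι) (hj : j < i), rec j hj = x}).Nonempty := by
    intro i rec
    apply h
    have : {x | ∃ (j : ι) (hj : j < i), rec j hj = x}
        = Set.range (fun j : ↥(Iio i) => rec j.1 j.2) := by
      ext x
      constructor
      · rintro ⟨j, hj, rfl⟩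
        exact ⟨⟨j, hj⟩, rfl⟩
      · rintro ⟨j, rfl⟩
        exact ⟨j.1, j.2, rfl⟩
    rw [this]
    exact Cardinal.mk_range_le
  let a : ι → α := WellFounded.fix (wellFounded_lt (α := ι))
    (fun i rec => Classical.choose (key i rec))
  have ha : ∀ i, a i ∈ S i \ {x | ∃ (j : ι) (hj : j < i), a j = x} := by
    intro i
    have h1 : a i = Classical.choose (key i (fun j _ => a j)) :=
      WellFounded.fix_eq (wellFounded_lt (α := ι)) _ i
    rw [h1]
    exact Classical.choose_spec (key i (fun j _ => a j))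
  refine ⟨a, ?_, fun i => (ha i).1⟩
  intro i j hij
  rcases lt_trichotomy i j with hlt | heq | hgt
  · exact absurd ⟨i, hlt, hij⟩ (ha j).2
  · exact heq
  · exact absurd ⟨j, hgt, hij.symm⟩ (ha i).2

/-- every function is eventually different from some member of `F` -/
def Evading (F : Set (ℕ → ℕ)) : Prop :=
  ∀ g : ℕ → ℕ, ∃ f ∈ F, ∀ᶠ n in atTop, f n ≠ g n

section IOE

variable {κ : Cardinal.{0}} (H : ∀ F : Set (ℕ → ℕ), #(↥F) ≤ κ → ¬ Evading F)

include H

theorem ioe_nat {ι : Type} (hι : #ι ≤ κ) (f : ι → ℕ → ℕ) :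
    ∃ g : ℕ → ℕ, ∀ i, ∃ᶠ n in atTop, f i n = g n := by
  have h1 := H (Set.range f) (le_trans Cardinal.mk_range_le hι)
  unfold Evading at h1
  push Not at h1
  obtain ⟨g, hg⟩ := h1
  refine ⟨g, fun i => ?_⟩
  have h2 := hg (f i) ⟨i, rfl⟩
  simpa using h2

theorem ioe {ι T : Type} [Encodable T] [Inhabited T] (hι : #ι ≤ κ) (f : ι → ℕ → T) :
    ∃ g : ℕ → T, ∀ i, ∃ᶠ n in atTop, f i n = g n := by
  obtain ⟨g, hg⟩ := ioe_nat H hι (fun i n => Encodable.encode (f i n))
  refine ⟨fun n => (Encodable.decode (α := T) (g n)).getD default, fun i => ?_⟩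
  refine (hg i).mono ?_
  intro n hn
  show f i n = (Encodable.decode (α := T) (g n)).getD default
  rw [← hn]
  simp

/-- infinitely often equal on prescribed infinite sets -/
theorem ioe_on {ι T : Type} [Encodable T] [Inhabited T] (hι : #ι ≤ κ) (f : ι → ℕ → T)
    (X : ι → Set ℕ) (hX : ∀ i, (X i).Infinite) :
    ∃ g : ℕ → T, ∀ i, {n | n ∈ X i ∧ f i n = g n}.Infinite := by
  classical
  let x : ι → ℕ → ℕ := fun i n => Nat.nth (· ∈ X i) n
  have hxmem : ∀ i n, x i n ∈ X i := fun i n =>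
    Nat.nth_mem_of_infinite (p := (· ∈ X i)) (hX i) n
  have hxinj : ∀ i, Function.Injective (x i) := fun i =>
    Nat.nth_injective (p := (· ∈ X i)) (hX i)
  obtain ⟨G, hG⟩ := ioe H hι
    (fun i n => (List.range (n + 1)).map (fun k => (x i k, f i (x i k))))
  -- keys of `G n`
  let K : ℕ → Set ℕ := fun n =>
    if ∃ i, (List.range (n + 1)).map (fun k => (x i k, f i (x i k))) = G n
    then {y | ∃ v, (y, v) ∈ G n} else univ
  have hK : ∀ (n : ℕ) (D : Set ℕ), #(↥D) ≤ #(↥(Iio n)) → (K n \ D).Nonempty := by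
    intro n D hD
    have hDfin : D.Finite := by
      have : #(↥D) < ℵ₀ := lt_of_le_of_lt hD (by
        rw [Cardinal.lt_aleph0_iff_set_finite]
        exact Set.finite_Iio n)
      exact Cardinal.lt_aleph0_iff_set_finite.1 this
    have hDcard : hDfin.toFinset.card ≤ n := by
      have h1 : #(↥D) = (hDfin.toFinset.card : Cardinal) := by
        rw [← Cardinal.mk_coe_finset]
        simp
      have h2 : #(↥(Iio n)) = (n : Cardinal) := by
        simp
      rw [h1, h2] at hD
      exact_mod_cast hD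
    by_cases hn : ∃ i, (List.range (n + 1)).map (fun k => (x i k, f i (x i k))) = G n
    · obtain ⟨i, hi⟩ := hn
      have hlt : hDfin.toFinset.card < ((Finset.range (n + 1)).image (x i)).card := by
        rw [Finset.card_image_of_injective _ (hxinj i), Finset.card_range]
        omega
      obtain ⟨y, hy1, hy2⟩ := Finset.exists_mem_notMem_of_card_lt_card hlt
      obtain ⟨k, hk, rfl⟩ := Finset.mem_image.1 hy1
      refine ⟨x i k, ?_, ?_⟩
      · simp only [K, if_pos (⟨i, hi⟩ : ∃ i, (List.range (n + 1)).map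
          (fun k => (x i k, f i (x i k))) = G n)]
        refine ⟨f i (x i k), ?_⟩
        rw [← hi]
        exact List.mem_map.2 ⟨k, by simpa using hk, rfl⟩
      · intro hmem
        exact hy2 (by simpa using hmem)
    · simp only [K, if_neg hn]
      have : (univ \ D : Set ℕ).Infinite := by
        rw [← Set.compl_eq_univ_sdiff]
        exact hDfin.infinite_compl
      exact this.nonempty
  obtain ⟨z, hzinj, hz⟩ := exists_injective_choice K hK
  -- the function `g`
  let g : ℕ → T := fun y =>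
    if h : ∃ (n : ℕ) (v : T), z n = y ∧ (y, v) ∈ G n then h.choose_spec.choose else default
  refine ⟨g, fun i => ?_⟩
  have hinf : {n | (List.range (n + 1)).map (fun k => (x i k, f i (x i k))) = G n}.Infinite :=
    Nat.frequently_atTop_iff_infinite.1 (hG i)
  refine Set.infinite_of_injOn_mapsTo (f := z) (hzinj.injOn) ?_ hinf
  intro n hn
  simp only [mem_ofPred_eq] at hn
  have h1 : z n ∈ K n := hz n
  simp only [K, if_pos (⟨i, hn⟩ : ∃ i, (List.range (n + 1)).map
    (fun k => (x i k, f i (x i k))) = G n)] at h1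
  obtain ⟨v, hv⟩ := h1
  have h2 : ∃ (m : ℕ) (v : T), z m = z n ∧ (z n, v) ∈ G m := ⟨n, v, rfl, hv⟩
  have h3 := h2.choose_spec.choose_spec
  have h4 : h2.choose = n := hzinj h3.1
  obtain ⟨v0, hv0⟩ : ∃ v0, v0 = h2.choose_spec.choose := ⟨_, rfl⟩
  have h9 : g (z n) = v0 := by rw [hv0]; exact dif_pos h2
  rw [← hv0] at h3
  have h5 : (z n, v0) ∈ G n := by
    have h6 := h3.2
    rwa [h4] at h6
  rw [← hn] at h5
  obtain ⟨k, hk, hk2⟩ := List.mem_map.1 h5
  have h7 : x i k = z n := congrArg Prod.fst hk2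
  have h8 : f i (x i k) = v0 := congrArg Prod.snd hk2
  simp only [mem_ofPred_eq]
  constructor
  · rw [← h7]; exact hxmem i k
  · rw [h9, ← h8, h7]

/-- a monotone sequence `w` growing infinitely often faster than each `u i` -/
theorem growth {ι : Type} (hι : #ι ≤ κ) (u : ι → ℕ → ℕ) (hmono : ∀ i, Monotone (u i))
    (hid : ∀ i m, m ≤ u i m) :
    ∃ w : ℕ → ℕ, Monotone w ∧ ∀ i, {m | u i (w m) ≤ w (m + 1)}.Infinite := by
  obtain ⟨w0, hw0⟩ := ioe_nat H hι (fun i m => (u i)^[m] m)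
  let w : ℕ → ℕ := fun m => ∑ j ∈ Finset.range (m + 1), w0 j
  have hw : Monotone w := by
    intro a b hab
    apply Finset.sum_le_sum_of_subset
    intro j hj
    simp only [Finset.mem_range] at hj ⊢
    omega
  have hw0w : ∀ m, w0 m ≤ w m := by
    intro m
    apply Finset.single_le_sum (f := w0) (fun _ _ => Nat.zero_le _)
    simp
  refine ⟨w, hw, fun i => ?_⟩
  by_contra hfin
  rw [Set.not_infinite] at hfin
  obtain ⟨m0, hm0⟩ : ∃ m0, ∀ m, m0 ≤ m → w (m + 1) < u i (w m) := by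
    obtain ⟨b, hb⟩ := hfin.bddAbove
    refine ⟨b + 1, fun m hm => ?_⟩
    by_contra hcon
    have h1 : m ∈ {m | u i (w m) ≤ w (m + 1)} := not_lt.1 hcon
    have h2 := hb h1
    omega
  have hit : ∀ j, w (m0 + j) ≤ (u i)^[j] (w m0) := by
    intro j
    induction j with
    | zero => simp
    | succ j ih =>
      have h1 := hm0 (m0 + j) (by omega)
      rw [Function.iterate_succ_apply']
      have h2 := hmono i ih
      have h3 : m0 + (j + 1) = m0 + j + 1 := by ring
      rw [h3]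
      omega
  obtain ⟨m, hm1, hm2⟩ := (Filter.frequently_atTop.1 (hw0 i)) (max (m0 + 1) (w m0))
  have h1 : m0 + 1 ≤ m := le_trans (le_max_left _ _) hm1
  have h2 : w m0 ≤ m := le_trans (le_max_right _ _) hm1
  obtain ⟨j, rfl⟩ : ∃ j, m = m0 + j + 1 := ⟨m - m0 - 1, by omega⟩
  have h3 := hm0 (m0 + j) (by omega)
  have h4 := hmono i (hit j)
  have h5 : (u i)^[j + 1] (w m0) ≤ (u i)^[j + 1] (m0 + j + 1) :=
    ((hmono i).iterate (j + 1)) h2
  have h6 : (u i)^[j + 1] (m0 + j + 1) ≤ (u i)^[m0 + j + 1] (m0 + j + 1) :=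
    (hmono i).monotone_iterate_of_le_map (hid i _) (by omega)
  have h7 := hw0w (m0 + j + 1)
  rw [Function.iterate_succ_apply'] at h5
  have h8 : (u i)^[m0 + j + 1] (m0 + j + 1) = w0 (m0 + j + 1) := hm2
  omega

/-- fewer conditions: the intersection of a family of at most `κ` dense open sets of reals is
nonempty -/
theorem nonempty_iInter_dense {ι : Type} (hι : #ι ≤ κ) (D : ι → Set ℝ)
    (hDo : ∀ i, IsOpen (D i)) (hDd : ∀ i, Dense (D i)) : (⋂ i, D i).Nonempty := by
  classical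
  -- a countable family of intervals
  obtain ⟨β, hβlt, hβ⟩ : ∃ β : ℕ → ℝ × ℝ, (∀ j, (β j).1 < (β j).2) ∧
      ∀ x y : ℝ, x < y → ∃ j, x < (β j).1 ∧ (β j).2 < y := by
    have : Nonempty {p : ℚ × ℚ // p.1 < p.2} := ⟨⟨(0, 1), by norm_num⟩⟩
    obtain ⟨s, hs⟩ := exists_surjective_nat {p : ℚ × ℚ // p.1 < p.2}
    refine ⟨fun j => (((s j).1.1 : ℝ), ((s j).1.2 : ℝ)), fun j => ?_, fun x y hxy => ?_⟩
    · show (((s j).1.1 : ℝ)) < (((s j).1.2 : ℝ))
      exact_mod_cast (s j).2
    · obtain ⟨p, hp1, hp2⟩ := exists_rat_btwn hxy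
      obtain ⟨q, hq1, hq2⟩ := exists_rat_btwn hp2
      obtain ⟨j, hj⟩ := hs ⟨(p, q), by exact_mod_cast hq1⟩
      refine ⟨j, ?_, ?_⟩
      · simp only [hj]; exact hp1
      · simp only [hj]; exact hq2
  have hs : ∀ (i : ι) (j : ℕ), ∃ j' : ℕ,
      Icc (β j').1 (β j').2 ⊆ Ioo (β j).1 (β j).2 ∩ D i := by
    intro i j
    obtain ⟨x, hx1, hx2⟩ := (hDd i).inter_open_nonempty _ isOpen_Ioo
      (nonempty_Ioo.2 (hβlt j))
    have hnb : Ioo (β j).1 (β j).2 ∩ D i ∈ 𝓝 x :=
      Filter.inter_mem (isOpen_Ioo.mem_nhds hx1) ((hDo i).mem_nhds hx2)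
    obtain ⟨l, r, hlr, hsub⟩ := mem_nhds_iff_exists_Ioo_subset.1 hnb
    obtain ⟨j', h1, h2⟩ := hβ l r (hlr.1.trans hlr.2)
    refine ⟨j', fun y hy => hsub ⟨lt_of_lt_of_le h1 hy.1, lt_of_le_of_lt hy.2 h2⟩⟩
  choose s hs using hs
  -- growth
  obtain ⟨w, hw, hX⟩ := growth H hι (fun i m => m + ∑ j ∈ Finset.range (m + 1), s i j)
    (fun i a b hab => by
      apply add_le_add hab
      apply Finset.sum_le_sum_of_subset
      intro j hj
      simp only [Finset.mem_range] at hj ⊢
      omega)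
    (fun i m => Nat.le_add_right _ _)
  obtain ⟨g, hg⟩ := ioe_on H hι (fun i m => (List.range (w m + 1)).map (s i)) _ hX
  -- the nested intervals
  let e : ℕ → ℕ := fun m => Nat.rec 0 (fun m em =>
    if (g m).getD em 0 ≤ w (m + 1) ∧
      Icc (β ((g m).getD em 0)).1 (β ((g m).getD em 0)).2 ⊆ Ioo (β em).1 (β em).2
    then (g m).getD em 0 else em) m
  have he : ∀ m, e (m + 1) = if (g m).getD (e m) 0 ≤ w (m + 1) ∧
      Icc (β ((g m).getD (e m) 0)).1 (β ((g m).getD (e m) 0)).2 ⊆ Ioo (β (e m)).1 (β (e m)).2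
    then (g m).getD (e m) 0 else e m := fun m => rfl
  have hew : ∀ m, e m ≤ w m := by
    intro m
    induction m with
    | zero => exact Nat.zero_le _
    | succ m ih =>
      rw [he]
      split_ifs with hc
      · exact hc.1
      · exact le_trans ih (hw (Nat.le_succ m))
  have hnest : ∀ m, Icc (β (e (m + 1))).1 (β (e (m + 1))).2 ⊆ Icc (β (e m)).1 (β (e m)).2 := by
    intro m
    rw [he]
    split_ifs with hc
    · exact hc.2.trans Ioo_subset_Icc_self
    · exact subset_rfl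
  obtain ⟨z, hz⟩ := IsCompact.nonempty_iInter_of_sequence_nonempty_isCompact_isClosed
    (fun m => Icc (β (e m)).1 (β (e m)).2) hnest (fun m => nonempty_Icc.2 (hβlt _).le)
    isCompact_Icc (fun m => isClosed_Icc)
  refine ⟨z, mem_iInter.2 fun i => ?_⟩
  obtain ⟨m, hm1, hm2⟩ := (hg i).nonempty
  have h1 : (g m).getD (e m) 0 = s i (e m) := by
    rw [← hm2]
    have hlt : e m < w m + 1 := Nat.lt_succ_of_le (hew m)
    simp [List.getD_eq_getElem?_getD, hlt]
  have h2 : s i (e m) ≤ w (m + 1) := by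
    have h3 : s i (e m) ≤ w m + ∑ j ∈ Finset.range (w m + 1), s i j := by
      have : s i (e m) ≤ ∑ j ∈ Finset.range (w m + 1), s i j :=
        Finset.single_le_sum (f := s i) (fun _ _ => Nat.zero_le _)
          (Finset.mem_range.2 (Nat.lt_succ_of_le (hew m)))
      omega
    exact le_trans h3 hm1
  have h3 := hs i (e m)
  have h4 : e (m + 1) = s i (e m) := by
    rw [he, if_pos]
    · exact h1
    · rw [h1]
      exact ⟨h2, h3.trans inter_subset_left⟩
  have h5 : z ∈ Icc (β (e (m + 1))).1 (β (e (m + 1))).2 := mem_iInter.1 hz (m + 1)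
  rw [h4] at h5
  exact (h3 h5).2

end IOE

/-- Bartoszynski: a cover of the line by `κ ≥ ℵ₀` meager sets gives an evading family of
size at most `κ`. -/
theorem exists_evading {κ : Cardinal.{0}} (hκ : ℵ₀ ≤ κ) (M : Set (Set ℝ)) (hM : #(↥M) ≤ κ)
    (hmeag : ∀ m ∈ M, IsMeagre m) (hcov : ⋃₀ M = univ) :
    ∃ F : Set (ℕ → ℕ), #(↥F) ≤ κ ∧ Evading F := by
  by_contra hcon
  push Not at hcon
  have h1 : ∀ m : ↥M, ∃ S : Set (Set ℝ), (∀ t ∈ S, IsOpen t) ∧ (∀ t ∈ S, Dense t) ∧
      S.Countable ∧ ⋂₀ S ⊆ (m : Set ℝ)ᶜ := by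
    intro m
    exact mem_residual_iff.1 (hmeag m.1 m.2)
  choose S hSo hSd hSc hS using h1
  let ι := Σ m : ↥M, ↥(S m)
  have hι : #ι ≤ κ := by
    have h2 : #ι = Cardinal.sum (fun m : ↥M => #(↥(S m))) := Cardinal.mk_sigma _
    rw [h2]
    calc Cardinal.sum (fun m : ↥M => #(↥(S m)))
        ≤ Cardinal.sum (fun _ : ↥M => ℵ₀) := by
          apply Cardinal.sum_le_sum
          intro m
          exact Cardinal.le_aleph0_iff_set_countable.2 (hSc m)
      _ = #(↥M) * ℵ₀ := by simp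
      _ ≤ κ * κ := mul_le_mul' hM hκ
      _ = κ := Cardinal.mul_eq_self hκ
  obtain ⟨z, hz⟩ := nonempty_iInter_dense hcon hι (fun i => (i.2 : Set ℝ))
    (fun i => hSo i.1 i.2 i.2.2) (fun i => hSd i.1 i.2 i.2.2)
  have h3 : z ∈ ⋃₀ M := by rw [hcov]; exact mem_univ z
  obtain ⟨m, hm, hzm⟩ := h3
  have h4 : z ∈ ⋂₀ S ⟨m, hm⟩ := by
    intro t ht
    exact mem_iInter.1 hz ⟨⟨m, hm⟩, ⟨t, ht⟩⟩
  exact hS ⟨m, hm⟩ h4 hzm

end Pool.Agent.Lib.MP_e80b9c_lc
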