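import Mathlib

/-!
# Baumgartner's axiom and the covering number of the meager ideal: definitions
-/

set_option autoImplicit false

namespace Pool.Agent.Lib.MP_e80b9c_lc

open Set Filter Topology
open Cardinal hiding univ

/-- `A` is `κ`-dense in the space `X`: every nonempty open set contains exactly `κ` points
of `A`. -/
def KDense (κ : Cardinal.{0}) {X : Type} [TopologicalSpace X] (A : Set X) : Prop :=
  ∀ U : Set X, IsOpen U → U.Nonempty → #(↥(A ∩ U)) = κ

/-- The axiom `BA_κ(X)`: for all `κ`-dense `A, B ⊆ X` some homeomorphism of `X` onto itself maps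
`A` onto `B`. -/
def BA (κ : Cardinal.{0}) (X : Type) [TopologicalSpace X] : Prop :=
  ∀ A B : Set X, KDense κ A → KDense κ B → ∃ h : X ≃ₜ X, h '' A = B

/-- `cov(M)`: the least cardinality of a family of meager sets of reals with union `ℝ`. -/
noncomputable def covM : Cardinal.{0} :=
  sInf {κ | ∃ F : Set (Set ℝ), #(↥F) = κ ∧ (∀ M ∈ F, IsMeagre M) ∧ ⋃₀ F = univ}

end Pool.Agent.Lib.MP_e80b9c_lc
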