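import Pool.Agent.Lib.MP_e80b9c_lc.Main

/-!
# `BA_κ(ℝ)` fails for `κ = cov(M)`
-/

set_option autoImplicit false

namespace Pool.Agent.Lib.MP_e80b9c_lc

open Set Filter Topology
open Cardinal hiding univ

/-- an injective self-map of a well-order moves some point beyond `ξ` weakly upwards, provided the
well-order is larger than the initial segment up to `ξ` -/
theorem exists_le_of_injective {ι : Type} [LinearOrder ι] [WellFoundedLT ι] (ξ : ι)
    (hξ : #(↥(Iic ξ)) * ℵ₀ < #ι) (π : ι → ι) (hπ : Function.Injective π) :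
    ∃ i, ξ < i ∧ i ≤ π i := by
  by_contra hcon
  push Not at hcon
  have h1 : ∀ i, ∃ n, π^[n] i ≤ ξ := by
    intro i
    induction i using WellFoundedLT.induction with
    | ind i ih =>
      by_cases hi : i ≤ ξ
      · exact ⟨0, hi⟩
      · obtain ⟨n, hn⟩ := ih (π i) (hcon i (not_le.1 hi))
        exact ⟨n + 1, by rwa [Function.iterate_succ_apply]⟩
  choose n hn using h1
  have h2 : Function.Injective (fun i => ((⟨π^[n i] i, hn i⟩ : ↥(Iic ξ)), n i)) := by
    intro i j hij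
    have h4 : n i = n j := congrArg Prod.snd hij
    have h3 : π^[n i] i = π^[n j] j := congrArg (fun t => (t.1 : ι)) hij
    rw [h4] at h3
    exact hπ.iterate _ h3
  have h3 := Cardinal.mk_le_of_injective h2
  rw [Cardinal.mk_prod, Cardinal.lift_id, Cardinal.lift_id, Cardinal.mk_nat] at h3
  exact absurd h3 (not_le.2 hξ)

theorem kdense_range {ι : Type} (κ : Cardinal.{0}) (hι : #ι = κ)
    (tag : ι → {p : ℚ × ℚ // p.1 < p.2})
    (htag : ∀ t, #(↥{i | tag i = t}) = κ) (a : ι → ℝ) (hinj : Function.Injective a)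
    (ha : ∀ i, a i ∈ Ioo ((tag i).1.1 : ℝ) ((tag i).1.2 : ℝ)) : KDense κ (Set.range a) := by
  intro U hU hUne
  apply le_antisymm
  · calc #(↥(Set.range a ∩ U)) ≤ #(↥(Set.range a)) := Cardinal.mk_le_mk_of_subset inter_subset_left
      _ ≤ #ι := Cardinal.mk_range_le
      _ = κ := hι
  · obtain ⟨x, hx⟩ := hUne
    obtain ⟨l, u, hlu, hsub⟩ := mem_nhds_iff_exists_Ioo_subset.1 (hU.mem_nhds hx)
    obtain ⟨p, hp1, hp2⟩ := exists_rat_btwn (hlu.1.trans hlu.2)
    obtain ⟨q, hq1, hq2⟩ := exists_rat_btwn hp2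
    let t : {p : ℚ × ℚ // p.1 < p.2} := ⟨(p, q), by exact_mod_cast hq1⟩
    rw [← htag t]
    refine Cardinal.mk_le_of_injective
      (f := fun i : ↥{i | tag i = t} => (⟨a i.1, ⟨i.1, rfl⟩, ?_⟩ : ↥(Set.range a ∩ U))) ?_
    · have h1 := ha i.1
      have h2 : tag i.1 = t := i.2
      rw [h2] at h1
      exact hsub ⟨hp1.trans h1.1, h1.2.trans hq2⟩
    · intro i j hij
      exact Subtype.ext (hinj (congrArg Subtype.val hij))

theorem not_BA_covM : ¬ BA covM ℝ := by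
  classical
  intro hBA
  -- index type
  let ι : Type := covM.ord.ToType
  have hι : #ι = covM := Cardinal.mk_ord_toType covM
  have hIio : ∀ i : ι, #(↥(Iio i)) < covM := fun i => by
    have := Cardinal.mk_Iio_lt i (by simp [ι])
    rwa [hι] at this
  have hIic : ∀ i : ι, #(↥(Iic i)) < covM := fun i => by
    have h1 : (Iic i : Set ι) = insert i (Iio i) := by
      ext j
      simp [le_iff_eq_or_lt]
    rw [h1]
    refine lt_of_le_of_lt Cardinal.mk_insert_le ?_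
    exact Cardinal.add_lt_of_lt aleph0_lt_covM.le (hIio i) (one_lt_aleph0.trans aleph0_lt_covM)
  -- evading family
  obtain ⟨M, hM, hmeag, hcov⟩ := covM_spec
  obtain ⟨F, hFcard, hF⟩ := exists_evading aleph0_lt_covM.le M hM.le hmeag hcov
  obtain ⟨φ, hφ⟩ : ∃ φ : ι → (ℕ → ℕ), ∀ f ∈ F, ∃ ξ, φ ξ = f := by
    rw [← hι] at hFcard
    obtain ⟨⟨g, hg⟩⟩ := hFcard
    obtain ⟨f0, hf0, -⟩ := hF (fun _ => 0)
    have : Nonempty ↥F := ⟨⟨f0, hf0⟩⟩
    refine ⟨fun i => (Function.invFun g i : ↥F), fun f hf => ⟨g ⟨f, hf⟩, ?_⟩⟩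
    show ((Function.invFun g (g ⟨f, hf⟩) : ↥F) : ℕ → ℕ) = f
    rw [Function.leftInverse_invFun hg]
  -- the enumeration of the targets
  obtain ⟨e, he⟩ := exists_frequent_enum (ℚ × ℚ × ℚ × ℚ)
  -- tags
  obtain ⟨tag, htag⟩ : ∃ tag : ι → {p : ℚ × ℚ // p.1 < p.2},
      ∀ t, #(↥{i | tag i = t}) = covM := by
    have hT : #{p : ℚ × ℚ // p.1 < p.2} ≤ ℵ₀ := Cardinal.mk_le_aleph0
    have hT' : #{p : ℚ × ℚ // p.1 < p.2} ≠ 0 := by
      have : Nonempty {p : ℚ × ℚ // p.1 < p.2} := ⟨⟨(0, 1), by norm_num⟩⟩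
      exact Cardinal.mk_ne_zero _
    have h1 : #ι = #(ι × {p : ℚ × ℚ // p.1 < p.2}) := by
      rw [Cardinal.mk_prod, Cardinal.lift_id, Cardinal.lift_id, hι]
      exact (Cardinal.mul_eq_left aleph0_lt_covM.le (hT.trans aleph0_lt_covM.le) hT').symm
    obtain ⟨E⟩ := Cardinal.eq.1 h1
    refine ⟨fun i => (E i).2, fun t => ?_⟩
    rw [← hι]
    apply Cardinal.eq.2
    refine ⟨⟨fun i => (E i.1).1, fun j => ⟨E.symm (j, t), ?_⟩, ?_, ?_⟩⟩
    · simp
    · rintro ⟨i, hi⟩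
      apply Subtype.ext
      simp only [mem_ofPred_eq] at hi
      subst hi
      simp
    · intro j
      simp
  -- the points `a i`
  obtain ⟨a, hainj, ha⟩ := exists_injective_choice
    (fun i : ι => {x | x ∈ Ioo ((tag i).1.1 : ℝ) ((tag i).1.2 : ℝ) ∧
      ∀ ξ < i, x ∈ Good e (φ ξ)})
    (by
      intro i D hD
      have hlt : ((tag i).1.1 : ℝ) < ((tag i).1.2 : ℝ) := by exact_mod_cast (tag i).2
      obtain ⟨x, hx1, hx2, hx3⟩ := exists_mem_residual (hIio i)
        (fun ξ : ↥(Iio i) => Good e (φ ξ)) (fun ξ => good_mem_residual e he _) D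
        (lt_of_le_of_lt hD (hIio i)) hlt
      exact ⟨x, ⟨hx1, fun ξ hξ => hx2 ⟨ξ, hξ⟩⟩, hx3⟩)
  -- the points `b i`
  obtain ⟨b, hbinj, hb⟩ := exists_injective_choice
    (fun i : ι => {x | x ∈ Ioo ((tag i).1.1 : ℝ) ((tag i).1.2 : ℝ) ∧
      ∀ j ≤ i, ∀ ξ < j, ∀ m, x ∈ Sec e (φ ξ) m (a j) ∧ -x ∈ Sec e (φ ξ) m (a j)})
    (by
      intro i D hD
      have hlt : ((tag i).1.1 : ℝ) < ((tag i).1.2 : ℝ) := by exact_mod_cast (tag i).2
      have hcard : #(↥(Iic i) × ↥(Iic i) × ℕ) < covM := by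
        rw [Cardinal.mk_prod, Cardinal.lift_id, Cardinal.lift_id, Cardinal.mk_prod,
          Cardinal.lift_id, Cardinal.lift_id, Cardinal.mk_nat]
        exact Cardinal.mul_lt_of_lt aleph0_lt_covM.le (hIic i)
          (Cardinal.mul_lt_of_lt aleph0_lt_covM.le (hIic i) aleph0_lt_covM)
      obtain ⟨x, hx1, hx2, hx3⟩ := exists_mem_residual hcard
        (fun t : ↥(Iic i) × ↥(Iic i) × ℕ => {x | t.2.1.1 < t.1.1 →
          x ∈ Sec e (φ t.2.1.1) t.2.2 (a t.1.1) ∧ -x ∈ Sec e (φ t.2.1.1) t.2.2 (a t.1.1)})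
        (by
          rintro ⟨j, ξ, m⟩
          by_cases hξ : ξ.1 < j.1
          · have hgood : Dense (Sec e (φ ξ.1) m (a j.1)) := (ha j.1).2 ξ.1 hξ m
            have h1 : Sec e (φ ξ.1) m (a j.1) ∈ residual ℝ :=
              residual_of_dense_open (isOpen_Sec e _ _ _) hgood
            have h2 : (Homeomorph.neg ℝ) ⁻¹' (Sec e (φ ξ.1) m (a j.1)) ∈ residual ℝ :=
              residual_of_dense_open ((isOpen_Sec e _ _ _).preimage (Homeomorph.continuous _))
                (hgood.preimage (Homeomorph.isOpenMap _))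
            refine Filter.mem_of_superset (Filter.inter_mem h1 h2) ?_
            rintro x ⟨hx1, hx2⟩ _
            exact ⟨hx1, hx2⟩
          · refine Filter.mem_of_superset Filter.univ_mem ?_
            intro x _ h
            exact absurd h hξ) D (lt_of_le_of_lt hD (hIio i)) hlt
      refine ⟨x, ⟨hx1, fun j hj ξ hξ m => ?_⟩, hx3⟩
      exact hx2 (⟨j, hj⟩, ⟨ξ, hξ.le.trans hj⟩, m) hξ)
  -- apply the axiom
  obtain ⟨h, hAB⟩ := hBA (Set.range a) (Set.range b)
    (kdense_range covM hι tag htag a hainj (fun i => (ha i).1))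
    (kdense_range covM hι tag htag b hbinj (fun i => (hb i).1))
  have hπ : ∀ i, ∃ j, b j = h (a i) := by
    intro i
    have h1 : h (a i) ∈ Set.range b := by
      rw [← hAB]
      exact ⟨a i, ⟨i, rfl⟩, rfl⟩
    exact h1
  choose π hπ using hπ
  have hπinj : Function.Injective π := by
    intro i j hij
    have h1 : h (a i) = h (a j) := by rw [← hπ i, ← hπ j, hij]
    exact hainj (h.injective h1)
  have hfin : ∀ ξ : ι, ∃ i, ξ < i ∧ i ≤ π i := fun ξ =>
    exists_le_of_injective ξ (by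
      rw [hι]
      exact Cardinal.mul_lt_of_lt aleph0_lt_covM.le (hIic ξ) aleph0_lt_covM) π hπinj
  rcases h.continuous.strictMono_of_inj h.injective with hmono | hanti
  · obtain ⟨f, hf, m, hm⟩ := exists_avoid e hF hmono
    obtain ⟨ξ, rfl⟩ := hφ f hf
    obtain ⟨i, hi1, hi2⟩ := hfin ξ
    obtain ⟨n, hn, hbox⟩ := ((hb (π i)).2 i hi2 ξ hi1 m).1
    rw [hπ i] at hbox
    exact hm n hn (a i) hbox
  · have hmono : StrictMono (fun x => -h x) := fun x y hxy => neg_lt_neg (hanti hxy)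
    obtain ⟨f, hf, m, hm⟩ := exists_avoid e hF hmono
    obtain ⟨ξ, rfl⟩ := hφ f hf
    obtain ⟨i, hi1, hi2⟩ := hfin ξ
    obtain ⟨n, hn, hbox⟩ := ((hb (π i)).2 i hi2 ξ hi1 m).2
    rw [hπ i] at hbox
    exact hm n hn (a i) hbox

end Pool.Agent.Lib.MP_e80b9c_lc
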