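import Pool.Agent.Lib.MP_e80b9c_lc.Bart

/-!
# `BA_κ(ℝ)` implies `cov(M) ≠ κ`

The key geometric fact: an increasing function meets at most one box of an anti-monotone chain
of boxes.
-/

set_option autoImplicit false

namespace Pool.Agent.Lib.MP_e80b9c_lc

open Set Filter Topology
open Cardinal hiding univ

/-! ### The cardinal `cov(M)` -/

theorem meagre_singleton (x : ℝ) : IsMeagre ({x} : Set ℝ) :=
  residual_of_dense_open isOpen_compl_singleton (dense_compl_singleton x)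

theorem covM_spec : ∃ F : Set (Set ℝ), #(↥F) = covM ∧ (∀ M ∈ F, IsMeagre M) ∧ ⋃₀ F = univ := by
  have hne : {κ : Cardinal.{0} | ∃ F : Set (Set ℝ), #(↥F) = κ ∧ (∀ M ∈ F, IsMeagre M) ∧
      ⋃₀ F = univ}.Nonempty := by
    refine ⟨#(↥(Set.range (fun x : ℝ => ({x} : Set ℝ)))),
      Set.range (fun x : ℝ => ({x} : Set ℝ)), rfl, ?_, ?_⟩
    · rintro M ⟨x, rfl⟩
      exact meagre_singleton x
    · ext x
      simp
  exact csInf_mem hne

theorem covM_le {F : Set (Set ℝ)} (h1 : ∀ M ∈ F, IsMeagre M) (h2 : ⋃₀ F = univ) :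
    covM ≤ #(↥F) :=
  csInf_le' ⟨F, rfl, h1, h2⟩

theorem covM_le_of_iUnion {ι : Type} (M : ι → Set ℝ) (h1 : ∀ i, IsMeagre (M i))
    (h2 : ⋃ i, M i = univ) : covM ≤ #ι := by
  refine le_trans (covM_le (F := Set.range M) ?_ ?_) Cardinal.mk_range_le
  · rintro _ ⟨i, rfl⟩
    exact h1 i
  · rw [Set.sUnion_range]
    exact h2

theorem aleph0_lt_covM : ℵ₀ < covM := by
  by_contra hcon
  obtain ⟨F, hF, hmeag, hcov⟩ := covM_spec
  have hc : F.Countable := by
    rw [← Cardinal.le_aleph0_iff_set_countable, hF]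
    exact not_lt.1 hcon
  have h1 : IsMeagre (⋃₀ F) := by
    rw [Set.sUnion_eq_biUnion]
    exact isMeagre_biUnion hc hmeag
  rw [hcov] at h1
  have h2 : (univ : Set ℝ)ᶜ ∈ residual ℝ := h1
  have h3 := (dense_of_mem_residual h2).nonempty
  simp at h3

/-- Fewer than `cov(M)` comeager sets, and fewer than `cov(M)` forbidden points. -/
theorem exists_mem_residual {ι : Type} (hι : #ι < covM) (E : ι → Set ℝ)
    (hE : ∀ i, E i ∈ residual ℝ) (D : Set ℝ) (hD : #(↥D) < covM) {p q : ℝ} (hpq : p < q) :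
    ∃ x ∈ Ioo p q, (∀ i, x ∈ E i) ∧ x ∉ D := by
  by_contra hcon
  push Not at hcon
  let c : ℝ := (q - p) / 2
  have hc : 0 < c := by simp only [c]; linarith
  let M : (ι ⊕ ↥D) × ℤ → Set ℝ := fun t =>
    (Homeomorph.addRight ((t.2 : ℝ) * c)) ⁻¹' (Sum.elim (fun i => (E i)ᶜ)
      (fun d : ↥D => ({(d : ℝ)} : Set ℝ)) t.1)
  have hM : ∀ t, IsMeagre (M t) := by
    intro t
    apply IsMeagre.preimage_of_isOpenMap (Homeomorph.continuous _) (Homeomorph.isOpenMap _)
    rcases t with ⟨i | d, k⟩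
    · show ((E i)ᶜ)ᶜ ∈ residual ℝ
      rw [compl_compl]
      exact hE i
    · exact meagre_singleton _
  have hcov : ⋃ t, M t = univ := by
    rw [eq_univ_iff_forall]
    intro x
    -- choose k with x + k c in (p, q)
    obtain ⟨k, hk1, hk2⟩ : ∃ k : ℤ, p < x + k * c ∧ x + k * c < q := by
      refine ⟨⌊(p - x) / c⌋ + 1, ?_, ?_⟩
      · have h1 := Int.lt_floor_add_one ((p - x) / c)
        rw [div_lt_iff₀ hc] at h1
        push_cast
        linarith
      · have h1 := Int.floor_le ((p - x) / c)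
        rw [le_div_iff₀ hc] at h1
        push_cast
        have h2 : 2 * c = q - p := by simp only [c]; ring
        nlinarith
    by_cases h : ∀ i, x + k * c ∈ E i
    · have h2 := hcon _ ⟨hk1, hk2⟩ h
      refine mem_iUnion.2 ⟨(Sum.inr ⟨_, h2⟩, k), ?_⟩
      simp [M]
    · push Not at h
      obtain ⟨i, hi⟩ := h
      refine mem_iUnion.2 ⟨(Sum.inl i, k), ?_⟩
      simpa [M] using hi
  have h1 := covM_le_of_iUnion M hM hcov
  have h2 : #((ι ⊕ ↥D) × ℤ) < covM := by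
    rw [Cardinal.mk_prod, Cardinal.lift_id, Cardinal.lift_id, Cardinal.mk_sum,
      Cardinal.lift_id, Cardinal.lift_id]
    refine Cardinal.mul_lt_of_lt aleph0_lt_covM.le
      (Cardinal.add_lt_of_lt aleph0_lt_covM.le hι hD) ?_
    rw [Cardinal.mk_int]
    exact aleph0_lt_covM
  exact absurd h1 (not_le.2 h2)

/-! ### Chains of boxes -/

/-- the `i`-th interval of an increasing chain in `(p, q)` -/
def R (p q : ℝ) (i : ℕ) : Set ℝ :=
  Ioo (q - (q - p) / ((i : ℝ) + 1)) (q - (q - p) / ((i : ℝ) + 2))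

/-- the `i`-th interval of a decreasing chain in `(r, s)` -/
def S (r s : ℝ) (i : ℕ) : Set ℝ :=
  Ioo (r + (s - r) / ((i : ℝ) + 2)) (r + (s - r) / ((i : ℝ) + 1))

theorem R_lt {p q : ℝ} {i j : ℕ} (hij : i < j) {a a' : ℝ} (ha : a ∈ R p q i)
    (ha' : a' ∈ R p q j) : a < a' := by
  have h1 : ((i : ℝ) + 1) ≤ j := by exact_mod_cast hij
  have hi0 : (0 : ℝ) ≤ i := Nat.cast_nonneg i
  have hpq : p < q := by
    by_contra hcon
    have h2 := ha.1.trans ha.2
    have h3 : (q - p) / ((i : ℝ) + 1) ≤ (q - p) / ((i : ℝ) + 2) := by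
      rw [div_le_div_iff₀ (by linarith) (by linarith)]
      nlinarith
    linarith
  have h4 : (q - p) / ((j : ℝ) + 1) ≤ (q - p) / ((i : ℝ) + 2) := by
    apply div_le_div_of_nonneg_left (by linarith) (by linarith) (by linarith)
  have h5 := ha.2
  have h6 := ha'.1
  linarith

theorem S_lt {r s : ℝ} {i j : ℕ} (hij : i < j) {b b' : ℝ} (hb : b ∈ S r s i)
    (hb' : b' ∈ S r s j) : b' < b := by
  have h1 : ((i : ℝ) + 1) ≤ j := by exact_mod_cast hij
  have hi0 : (0 : ℝ) ≤ i := Nat.cast_nonneg i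
  have hrs : r < s := by
    by_contra hcon
    have h2 := hb.1.trans hb.2
    have h3 : (s - r) / ((i : ℝ) + 1) ≤ (s - r) / ((i : ℝ) + 2) := by
      rw [div_le_div_iff₀ (by linarith) (by linarith)]
      nlinarith
    linarith
  have h4 : (s - r) / ((j : ℝ) + 1) ≤ (s - r) / ((i : ℝ) + 2) := by
    apply div_le_div_of_nonneg_left (by linarith) (by linarith) (by linarith)
  have h5 := hb.1
  have h6 := hb'.2
  linarith

theorem R_nonempty {p q : ℝ} (hpq : p < q) (i : ℕ) : (R p q i).Nonempty := by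
  have hi0 : (0 : ℝ) ≤ i := Nat.cast_nonneg i
  apply nonempty_Ioo.2
  have : (q - p) / ((i : ℝ) + 2) < (q - p) / ((i : ℝ) + 1) :=
    div_lt_div_of_pos_left (by linarith) (by linarith) (by linarith)
  linarith

theorem S_nonempty {r s : ℝ} (hrs : r < s) (i : ℕ) : (S r s i).Nonempty := by
  have hi0 : (0 : ℝ) ≤ i := Nat.cast_nonneg i
  apply nonempty_Ioo.2
  have : (s - r) / ((i : ℝ) + 2) < (s - r) / ((i : ℝ) + 1) :=
    div_lt_div_of_pos_left (by linarith) (by linarith) (by linarith)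
  linarith

theorem R_subset {p q : ℝ} (hpq : p < q) (i : ℕ) : R p q i ⊆ Ioo p q := by
  have hi0 : (0 : ℝ) ≤ i := Nat.cast_nonneg i
  intro a ha
  have h1 : (q - p) / ((i : ℝ) + 1) ≤ q - p := div_le_self (by linarith) (by linarith)
  have h2 : 0 < (q - p) / ((i : ℝ) + 2) := div_pos (by linarith) (by linarith)
  have h3 := ha.1
  have h4 := ha.2
  constructor <;> linarith

theorem S_subset {r s : ℝ} (hrs : r < s) (i : ℕ) : S r s i ⊆ Ioo r s := by
  have hi0 : (0 : ℝ) ≤ i := Nat.cast_nonneg i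
  intro a ha
  have h1 : (s - r) / ((i : ℝ) + 1) ≤ s - r := div_le_self (by linarith) (by linarith)
  have h2 : 0 < (s - r) / ((i : ℝ) + 2) := div_pos (by linarith) (by linarith)
  have h3 := ha.1
  have h4 := ha.2
  constructor <;> linarith

/-- every element of a countable type is enumerated infinitely often -/
theorem exists_frequent_enum (X : Type) [Countable X] [Nonempty X] :
    ∃ e : ℕ → X, ∀ (x : X) (m : ℕ), ∃ n, m ≤ n ∧ e n = x := by
  obtain ⟨s, hs⟩ := exists_surjective_nat (ℕ × X)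
  refine ⟨fun n => (s n).2, fun x m => ?_⟩
  have hinf : {n | (s n).2 = x}.Infinite := by
    have h1 : (Set.univ : Set ℕ) ⊆ (fun n => (s n).1) '' {n | (s n).2 = x} := by
      intro k _
      obtain ⟨n, hn⟩ := hs (k, x)
      exact ⟨n, by simp [hn], by simp [hn]⟩
    exact Set.Infinite.of_image _ (Set.infinite_univ.mono h1)
  obtain ⟨n, hn, hmn⟩ := hinf.exists_gt m
  exact ⟨n, hmn.le, hn⟩

section Codes

variable (e : ℕ → ℚ × ℚ × ℚ × ℚ)

/-- `(a, b)` lies in the `i`-th box of the `n`-th chain -/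
def InBox (n i : ℕ) (a b : ℝ) : Prop :=
  a ∈ R ((e n).1 : ℝ) ((e n).2.1 : ℝ) i ∧ b ∈ S ((e n).2.2.1 : ℝ) ((e n).2.2.2 : ℝ) i

theorem inBox_unique {k : ℝ → ℝ} (hk : StrictMono k) {n i j : ℕ} {a a' : ℝ}
    (h : InBox e n i a (k a)) (h' : InBox e n j a' (k a')) : i = j := by
  rcases lt_trichotomy i j with hij | hij | hij
  · exact absurd (hk (R_lt hij h.1 h'.1)) (not_lt.2 (S_lt hij h.2 h'.2).le)
  · exact hij
  · exact absurd (hk (R_lt hij h'.1 h.1)) (not_lt.2 (S_lt hij h'.2 h.2).le)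

/-- a strictly increasing function avoids almost all boxes prescribed by some member of an
evading family -/
theorem exists_avoid {F : Set (ℕ → ℕ)} (hF : Evading F) {k : ℝ → ℝ} (hk : StrictMono k) :
    ∃ f ∈ F, ∃ m, ∀ n, m ≤ n → ∀ a, ¬ InBox e n (f n) a (k a) := by
  classical
  let g : ℕ → ℕ := fun n => if h : ∃ i a, InBox e n i a (k a) then h.choose else 0
  obtain ⟨f, hf, hfg⟩ := hF g
  obtain ⟨m, hm⟩ := Filter.eventually_atTop.1 hfg
  refine ⟨f, hf, m, fun n hn a hbox => ?_⟩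
  have h1 : ∃ i a, InBox e n i a (k a) := ⟨f n, a, hbox⟩
  obtain ⟨a', ha'⟩ := h1.choose_spec
  have h2 : f n = h1.choose := inBox_unique e hk hbox ha'
  have h3 : g n = h1.choose := dif_pos h1
  exact hm n hn (by rw [h2, h3])

/-- the union of the boxes with index at least `m` prescribed by `f`, section at `a` -/
def Sec (f : ℕ → ℕ) (m : ℕ) (a : ℝ) : Set ℝ :=
  {b | ∃ n, m ≤ n ∧ InBox e n (f n) a b}

theorem isOpen_Sec (f : ℕ → ℕ) (m : ℕ) (a : ℝ) : IsOpen (Sec e f m a) := by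
  have : Sec e f m a = ⋃ n, ⋃ (_ : m ≤ n), ⋃ (_ : a ∈ R ((e n).1 : ℝ) ((e n).2.1 : ℝ) (f n)),
      S ((e n).2.2.1 : ℝ) ((e n).2.2.2 : ℝ) (f n) := by
    ext b
    simp only [Sec, InBox, mem_ofPred_eq, mem_iUnion, exists_prop]
  rw [this]
  exact isOpen_iUnion fun n => isOpen_iUnion fun _ => isOpen_iUnion fun _ => isOpen_Ioo

/-- all sections at `a` are dense -/
def Good (f : ℕ → ℕ) : Set ℝ := {a | ∀ m, Dense (Sec e f m a)}

theorem good_mem_residual (he : ∀ (x : ℚ × ℚ × ℚ × ℚ) (m : ℕ), ∃ n, m ≤ n ∧ e n = x)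
    (f : ℕ → ℕ) : Good e f ∈ residual ℝ := by
  -- for each m and rational interval (r, s), an open dense set
  let W : ℕ × ℚ × ℚ → Set ℝ := fun t =>
    {a | t.2.1 < t.2.2 → (Sec e f t.1 a ∩ Ioo (t.2.1 : ℝ) (t.2.2 : ℝ)).Nonempty}
  have hW : ∀ t, W t ∈ residual ℝ := by
    rintro ⟨m, r, s⟩
    by_cases hrs : r < s
    · have hopen : IsOpen (W (m, r, s)) := by
        have : W (m, r, s) = ⋃ n, ⋃ (_ : m ≤ n),
            ⋃ (_ : (S ((e n).2.2.1 : ℝ) ((e n).2.2.2 : ℝ) (f n) ∩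
              Ioo (r : ℝ) (s : ℝ)).Nonempty), R ((e n).1 : ℝ) ((e n).2.1 : ℝ) (f n) := by
          ext a
          simp only [W, mem_ofPred_eq, mem_iUnion, Sec, InBox]
          constructor
          · intro h
            obtain ⟨b, ⟨n, hn, hb1, hb2⟩, hb3⟩ := h hrs
            exact ⟨n, hn, ⟨b, hb2, hb3⟩, hb1⟩
          · rintro ⟨n, hn, ⟨b, hb2, hb3⟩, hb1⟩ _
            exact ⟨b, ⟨n, hn, hb1, hb2⟩, hb3⟩
        rw [this]
        exact isOpen_iUnion fun n => isOpen_iUnion fun _ => isOpen_iUnion fun _ => isOpen_Ioo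
      have hdense : Dense (W (m, r, s)) := by
        rw [dense_iff_inter_open]
        intro U hU hUne
        obtain ⟨x, hx⟩ := hUne
        obtain ⟨l, u, hlu, hsub⟩ := mem_nhds_iff_exists_Ioo_subset.1 (hU.mem_nhds hx)
        obtain ⟨p, hp1, hp2⟩ := exists_rat_btwn (hlu.1.trans hlu.2)
        obtain ⟨q, hq1, hq2⟩ := exists_rat_btwn hp2
        obtain ⟨n, hmn, hn⟩ := he (p, q, r, s) m
        have hrs' : (r : ℝ) < s := by exact_mod_cast hrs
        obtain ⟨a, ha⟩ := R_nonempty hq1 (f n)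
        obtain ⟨b, hb⟩ := S_nonempty hrs' (f n)
        have ha' := R_subset hq1 (f n) ha
        refine ⟨a, hsub ⟨hp1.trans ha'.1, ha'.2.trans hq2⟩, ?_⟩
        intro _
        refine ⟨b, ⟨n, hmn, ?_, ?_⟩, S_subset hrs' (f n) hb⟩
        · rw [hn]; exact ha
        · rw [hn]; exact hb
      exact residual_of_dense_open hopen hdense
    · have : W (m, r, s) = univ := by
        ext a
        simp only [W, mem_ofPred_eq, mem_univ, iff_true]
        intro h
        exact absurd h hrs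
      rw [this]
      exact Filter.univ_mem
  have h1 : (⋂ t, W t) ∈ residual ℝ := countable_iInter_mem.2 hW
  refine Filter.mem_of_superset h1 ?_
  intro a ha m
  rw [dense_iff_inter_open]
  intro U hU hUne
  obtain ⟨x, hx⟩ := hUne
  obtain ⟨l, u, hlu, hsub⟩ := mem_nhds_iff_exists_Ioo_subset.1 (hU.mem_nhds hx)
  obtain ⟨p, hp1, hp2⟩ := exists_rat_btwn (hlu.1.trans hlu.2)
  obtain ⟨q, hq1, hq2⟩ := exists_rat_btwn hp2
  have h2 := mem_iInter.1 ha (m, p, q)
  obtain ⟨b, hb1, hb2⟩ := h2 (by exact_mod_cast hq1)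
  exact ⟨b, hsub ⟨hp1.trans hb2.1, hb2.2.trans hq2⟩, hb1⟩

end Codes

end Pool.Agent.Lib.MP_e80b9c_lc
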